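import Mathlib

set_option autoImplicit false

namespace Pool.Agent.H.MP_697e97_al

lemma rec_choice {T V : Type*} [Nonempty V] (enc : T → ℕ) (P : T → (T → V) → V → Prop)
    (hex : ∀ t p, ∃ z, P t p z)
    (hloc : ∀ t p q z, (∀ s, enc s < enc t → p s = q s) → P t p z → P t q z) :
    ∃ e : T → V, ∀ t, P t e (e t) := by
  classical
  let F : ∀ t : T, (∀ s, enc s < enc t → V) → V := fun t ih =>
    (hex t fun s => if h : enc s < enc t then ih s h else Classical.arbitrary V).choose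
  let e : T → V := (InvImage.wf enc Nat.lt_wfRel.wf).fix F
  refine ⟨e, fun t => ?_⟩
  have he : e t = F t fun s _ => e s := WellFounded.fix_eq _ _ _
  rw [he]
  exact hloc t _ _ _ (fun s hs => dif_pos hs)
    (hex t fun s => if h : enc s < enc t then e s else Classical.arbitrary V).choose_spec

lemma fin_lt {T : Type*} {enc : T → ℕ} (h : Function.Injective enc) (n : ℕ) :
    {s | enc s < n}.Finite := (Set.finite_lt_nat n).preimage h.injOn

variable {V : Type*} (G : SimpleGraph V)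

def Ext : Prop := ∀ U W : Finset V, Disjoint U W →
  ∃ z, z ∉ U ∧ z ∉ W ∧ (∀ u ∈ U, G.Adj z u) ∧ ∀ w ∈ W, ¬ G.Adj z w

variable {G}

lemma Ext.set (hG : Ext G) {U W : Set V} (hU : U.Finite) (hW : W.Finite) :
    ∃ z, z ∉ U ∧ z ∉ W ∧ (∀ u ∈ U, G.Adj z u) ∧ ∀ w ∈ W, w ∉ U → ¬ G.Adj z w := by
  classical
  obtain ⟨z, h1, h2, h3, h4⟩ := hG hU.toFinset (hW.toFinset \ hU.toFinset) Finset.disjoint_sdiff
  simp only [Finset.mem_sdiff, Set.Finite.mem_toFinset] at h1 h2 h3 h4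
  exact ⟨z, h1, fun h => h2 ⟨h, h1⟩, h3, fun w a b => h4 w ⟨a, b⟩⟩

lemma embed [Countable V] (hG : Ext G) {T : Type*} [Countable T] (H : SimpleGraph T) :
    ∃ e : T → V, Function.Injective e ∧ (∀ s t, G.Adj (e s) (e t) ↔ H.Adj s t) ∧
      ∀ v ∉ Set.range e, {t | G.Adj v (e t)}.Finite := by
  obtain ⟨enc, henc⟩ := exists_injective_nat T
  obtain ⟨c, hc⟩ := exists_injective_nat V
  have : Nonempty V := ⟨(hG ∅ ∅ (by simp)).choose⟩
  obtain ⟨e, he⟩ := rec_choice enc (fun t p z => (∀ s, enc s < enc t → z ≠ p s) ∧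
      (∀ s, enc s < enc t → H.Adj t s → G.Adj z (p s)) ∧
      ∀ v, (c v < enc t ∨ ∃ s, enc s < enc t ∧ p s = v) →
        (∀ s, enc s < enc t → H.Adj t s → p s ≠ v) → ¬ G.Adj z v)
    (fun t p => by
      obtain ⟨z, h1, h2, h3, h4⟩ := hG.set
        (((fin_lt henc (enc t)).subset (t := {s | enc s < enc t ∧ H.Adj t s})
          fun s hs => hs.1).image p)
        ((fin_lt hc (enc t)).union ((fin_lt henc (enc t)).image p))
      refine ⟨z, fun s hs hz => h2 (.inr ⟨s, hs, hz.symm⟩), fun s hs ha => h3 _ ⟨s, ⟨hs, ha⟩, rfl⟩,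
        fun v hv hn => h4 v hv ?_⟩
      rintro ⟨s, hs, rfl⟩
      exact hn s hs.1 hs.2 rfl)
    (fun t p q z hpq ⟨h1, h2, h3⟩ => ⟨fun s hs => hpq s hs ▸ h1 s hs,
      fun s hs ha => hpq s hs ▸ h2 s hs ha, fun v hv hn => h3 v
        (hv.imp_right fun ⟨s, hs, hv⟩ => ⟨s, hs, (hpq s hs).trans hv⟩)
        fun s hs ha => (hpq s hs).symm ▸ hn s hs ha⟩)
  have hinj : Function.Injective e := by
    intro s t h
    rcases lt_trichotomy (enc s) (enc t) with hl | hl | hl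
    · exact absurd h.symm ((he t).1 s hl)
    · exact henc hl
    · exact absurd h ((he s).1 t hl)
  have key : ∀ s t, enc s < enc t → (G.Adj (e t) (e s) ↔ H.Adj t s) := fun s t hl =>
    ⟨fun h => by
      by_contra hn
      exact (he t).2.2 (e s) (.inr ⟨s, hl, rfl⟩) (fun s' _ ha hs => hn (hinj hs ▸ ha)) h,
      (he t).2.1 s hl⟩
  refine ⟨e, hinj, fun s t => ?_, fun v hv => (fin_lt henc (c v + 1)).subset fun t ht => ?_⟩
  · rcases lt_trichotomy (enc s) (enc t) with hl | hl | hl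
    · rw [G.adj_comm, H.adj_comm]; exact key s t hl
    · rw [henc hl]; simp
    · exact key t s hl
  · by_contra hn
    exact (he t).2.2 v (.inl (by simpa using hn)) (fun s _ _ hs => hv ⟨s, hs⟩) (G.adj_symm ht)

lemma extend [Countable V] (hG : Ext G) {T : Type*} {H : SimpleGraph T} {e : T → V}
    (h1 : Function.Injective e) (h2 : ∀ s t, G.Adj (e s) (e t) ↔ H.Adj s t)
    (h3 : ∀ v ∉ Set.range e, {t | G.Adj v (e t)}.Finite) (ψ : T → V)
    (hψ : ∀ s t, H.Adj s t → G.Adj (ψ s) (ψ t)) : ∃ φ : G →g G, ∀ t, φ (e t) = ψ t := by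
  obtain ⟨c, hc⟩ := exists_injective_nat V
  have : Nonempty V := ⟨(hG ∅ ∅ (by simp)).choose⟩
  obtain ⟨φ, hφ⟩ := rec_choice c (fun v p z => (∀ t, e t = v → z = ψ t) ∧
      (v ∉ Set.range e → (∀ t, G.Adj v (e t) → G.Adj z (ψ t)) ∧ ∀ w, c w < c v → G.Adj z (p w)))
    (fun v p => by
      by_cases hv : v ∈ Set.range e
      · obtain ⟨t, rfl⟩ := hv
        exact ⟨ψ t, fun s hs => by rw [h1 hs], fun h => absurd ⟨t, rfl⟩ h⟩
      · obtain ⟨z, -, -, h, -⟩ := hG.set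
          (((h3 v hv).image ψ).union ((fin_lt hc (c v)).image p)) Set.finite_empty
        exact ⟨z, fun t ht => absurd ⟨t, ht⟩ hv, fun _ => ⟨fun t ht => h _ (.inl ⟨t, ht, rfl⟩),
          fun w hw => h _ (.inr ⟨w, hw, rfl⟩)⟩⟩)
    (fun v p q z hpq ⟨a, b⟩ => ⟨a, fun hv => ⟨(b hv).1, fun w hw => hpq w hw ▸ (b hv).2 w hw⟩⟩)
  have he : ∀ t, φ (e t) = ψ t := fun t => (hφ _).1 t rfl
  refine ⟨⟨φ, fun {v w} h => ?_⟩, he⟩
  by_cases hv : v ∈ Set.range e
  · obtain ⟨s, rfl⟩ := hv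
    by_cases hw : w ∈ Set.range e
    · obtain ⟨t, rfl⟩ := hw
      rw [he, he]; exact hψ _ _ ((h2 _ _).1 h)
    · rw [he]; exact (((hφ w).2 hw).1 s h.symm).symm
  · by_cases hw : w ∈ Set.range e
    · obtain ⟨t, rfl⟩ := hw
      rw [he]; exact ((hφ v).2 hv).1 t h
    · rcases lt_trichotomy (c v) (c w) with hl | hl | hl
      · exact (((hφ w).2 hw).2 v hl).symm
      · exact absurd (hc hl) h.ne
      · exact ((hφ v).2 hv).2 w hl

/-- G together with a disjoint copy of the tensor square of G -/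
def dbl (G : SimpleGraph V) : SimpleGraph (V ⊕ V × V) where
  Adj
    | .inl v, .inl w => G.Adj v w
    | .inr p, .inr q => G.Adj p.1 q.1 ∧ G.Adj p.2 q.2
    | _, _ => False
  symm := ⟨by
    rintro (v | p) (w | q) h
    exacts [G.adj_symm h, h, h, ⟨G.adj_symm h.1, G.adj_symm h.2⟩]⟩
  loopless := ⟨by
    rintro (v | p) h
    exacts [G.irrefl h, G.irrefl h.1]⟩

theorem three [Countable V] (hG : Ext G) :
    ∃ (α β : G →g G) (g : (G →g G) → (G →g G)),
      (∀ f h, g f * g h = g h * g f) ∧ ∀ f, f = β * g f * α := by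
  obtain ⟨e, h1, h2, h3⟩ := embed hG (dbl G)
  have hφ : ∀ f : G →g G, ∃ φ : G →g G, ∀ t, φ (e t) = Sum.elim f Prod.fst t := fun f =>
    extend hG h1 h2 h3 _ (by
      rintro (v | p) (w | q) h
      exacts [f.map_adj h, h.elim, h.elim, h.1])
  choose φ hφ using hφ
  obtain ⟨β, hβ⟩ := extend hG h1 h2 h3 (Sum.elim id Prod.snd) (by
      rintro (v | p) (w | q) h
      exacts [h, h.elim, h.elim, h.2])
  refine ⟨⟨fun v => e (.inl v), fun h => (h2 _ _).2 h⟩, β,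
    fun f => ⟨fun z => e (.inr (φ 1 z, φ f z)), fun h =>
      (h2 _ _).2 ⟨(φ 1).map_adj h, (φ f).map_adj h⟩⟩, fun f h => ?_, fun f => ?_⟩
  · ext z
    show e (.inr (φ 1 (e _), φ f (e _))) = e (.inr (φ 1 (e _), φ h (e _)))
    simp only [hφ, Sum.elim_inr]
  · ext v
    show f v = β (e (.inr (φ 1 (e _), φ f (e _))))
    simp only [hφ, hβ, Sum.elim_inr, Sum.elim_inl]

lemma bound1 (C : Set (ℚ →o ℚ)) (hC : ∀ a ∈ C, ∀ b ∈ C, a * b = b * a) :
    ∃ b : ℕ → ℚ → ℚ, ∀ h ∈ C, ∃ m, ∀ x, h x ≤ b m x := by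
  by_cases h0 : ∃ x₀, ∀ y, ∃ g ∈ C, y ≤ g x₀
  · obtain ⟨x₀, h0⟩ := h0
    choose g hg hy using h0
    refine ⟨fun m x => g x m, fun h hh => ⟨⌈h x₀⌉₊, fun x => ?_⟩⟩
    have e : h (g x x₀) = g x (h x₀) := DFunLike.congr_fun (hC h hh (g x) (hg x)) x₀
    exact (h.mono (hy x)).trans (e.le.trans ((g x).mono (Nat.le_ceil _)))
  · push Not at h0
    choose y hy using h0
    exact ⟨fun _ => y, fun h hh => ⟨0, fun x => (hy x h hh).le⟩⟩

lemma boundn : ∀ (n : ℕ) (C : Fin n → Set (ℚ →o ℚ)), (∀ i, ∀ a ∈ C i, ∀ b ∈ C i, a * b = b * a) →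
    ∃ b : ℕ → ℚ → ℚ, ∀ c : Fin n → ℚ →o ℚ, (∀ i, c i ∈ C i) →
      ∃ m, ∀ x, (List.ofFn c).prod x ≤ b m x
  | 0, _, _ => ⟨fun _ x => x, fun c _ => ⟨0, fun x => by simp⟩⟩
  | n + 1, C, hC => by
    obtain ⟨b₀, h₀⟩ := bound1 (C 0) (hC 0)
    obtain ⟨b₁, h₁⟩ := boundn n (fun i => C i.succ) fun i => hC i.succ
    refine ⟨fun m x => b₀ m.unpair.1 (b₁ m.unpair.2 x), fun c hc => ?_⟩
    obtain ⟨m₀, hm₀⟩ := h₀ (c 0) (hc 0)
    obtain ⟨m₁, hm₁⟩ := h₁ (fun i => c i.succ) fun i => hc i.succ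
    refine ⟨m₀.pair m₁, fun x => ?_⟩
    simp only [List.ofFn_succ, List.prod_cons, Nat.unpair_pair]
    exact ((c 0).mono (hm₁ x)).trans (hm₀ _)

lemma fast (a : ℕ → ℚ) : ∃ f : ℚ ≃o ℚ, ∀ m : ℕ, a m < f (m + 1) := by
  let F : ℕ → ℚ := fun n => Nat.rec 0 (fun k r => r + 1 + |a k - r|) n
  have F0 : F 0 = 0 := rfl
  have Fs : ∀ n, F (n + 1) = F n + 1 + |a n - F n| := fun n => rfl
  have F1 : ∀ n, F n + 1 ≤ F (n + 1) := fun n => by rw [Fs]; linarith [abs_nonneg (a n - F n)]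
  have Fm : Monotone F := monotone_nat_of_le_succ fun n => by linarith [F1 n]
  have Fn : ∀ n : ℕ, (n : ℚ) ≤ F n := fun n => by
    induction n with
    | zero => simp [F0]
    | succ n ih => push_cast; linarith [F1 n]
  let f : ℚ → ℚ := fun x => if x < 0 then x else F ⌊x⌋₊ + (x - ⌊x⌋₊) * (F (⌊x⌋₊ + 1) - F ⌊x⌋₊)
  have hlo : ∀ x, 0 ≤ x → F ⌊x⌋₊ ≤ f x ∧ f x < F (⌊x⌋₊ + 1) := fun x hx => by
    simp only [f, if_neg (not_lt.2 hx)]
    have := Nat.floor_le hx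
    have := Nat.lt_floor_add_one x
    have := F1 ⌊x⌋₊
    constructor <;> nlinarith
  have hmono : StrictMono f := by
    intro x y hxy
    by_cases hx : x < 0
    · by_cases hy : y < 0
      · simp only [f, if_pos hx, if_pos hy]; exact hxy
      · have := (hlo y (not_lt.1 hy)).1
        have h2 := Fn ⌊y⌋₊
        have h3 : (0 : ℚ) ≤ ⌊y⌋₊ := Nat.cast_nonneg _
        have h4 : f x = x := if_pos hx
        linarith
    · have hx' := not_lt.1 hx
      have hy' : 0 ≤ y := hx'.trans hxy.le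
      rcases (Nat.floor_le_floor hxy.le).eq_or_lt with h | h
      · simp only [f, if_neg hx, if_neg (not_lt.2 hy'), h]
        have := F1 ⌊y⌋₊
        nlinarith
      · exact (hlo x hx').2.trans_le ((Fm h).trans (hlo y hy').1)
  have hsurj : Function.Surjective f := by
    intro y
    by_cases hy : y < 0
    · exact ⟨y, if_pos hy⟩
    have hex : ∃ n, y < F (n + 1) := ⟨⌈y⌉₊, by
      linarith [Nat.le_ceil y, Fn ⌈y⌉₊, F1 ⌈y⌉₊]⟩
    classical
    set n := Nat.find hex with hn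
    have h1 : y < F (n + 1) := Nat.find_spec hex
    have h2 : F n ≤ y := by
      rcases Nat.eq_zero_or_pos n with h | h
      · rw [h, F0]; exact not_lt.1 hy
      · have := Nat.find_min hex (m := n - 1) (by omega)
        rw [Nat.sub_add_cancel h] at this
        exact not_lt.1 this
    have h3 : 0 < F (n + 1) - F n := by linarith [F1 n]
    have h4 : 0 ≤ (y - F n) / (F (n + 1) - F n) := div_nonneg (by linarith) h3.le
    have h5 : (y - F n) / (F (n + 1) - F n) < 1 := (div_lt_one h3).2 (by linarith)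
    have h6 : (0 : ℚ) ≤ n := Nat.cast_nonneg _
    have h7 : ⌊(n : ℚ) + (y - F n) / (F (n + 1) - F n)⌋₊ = n :=
      (Nat.floor_eq_iff (by linarith)).2 ⟨by linarith, by linarith⟩
    refine ⟨n + (y - F n) / (F (n + 1) - F n), ?_⟩
    simp only [f, h7]
    rw [if_neg (by linarith), add_sub_cancel_left, div_mul_cancel₀ _ h3.ne']
    ring
  refine ⟨hmono.orderIsoOfSurjective f hsurj, fun m => ?_⟩
  have h := (hlo ((m + 1 : ℕ) : ℚ) (Nat.cast_nonneg _)).1
  rw [Nat.floor_natCast, Fs] at h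
  have := le_abs_self (a m - F m)
  show a m < f (m + 1)
  push_cast at h
  linarith

lemma noQ (n : ℕ) (C : Fin n → Set (ℚ →o ℚ)) (hC : ∀ i, ∀ a ∈ C i, ∀ b ∈ C i, a * b = b * a) :
    ∃ f : ℚ ≃o ℚ, ∀ c : Fin n → ℚ →o ℚ, (∀ i, c i ∈ C i) → ∃ x, (List.ofFn c).prod x ≠ f x := by
  obtain ⟨b, hb⟩ := boundn n C hC
  obtain ⟨f, hf⟩ := fast fun m => b m (m + 1)
  refine ⟨f, fun c hc => ?_⟩
  obtain ⟨m, hm⟩ := hb c hc
  exact ⟨m + 1, ((hm _).trans_lt (hf m)).ne⟩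

end Pool.Agent.H.MP_697e97_al
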